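import Mathlib
import Pool.Agent.R784.PV.Geo

/-!
MP_1c2560_pr, Q1 (negative answer): there is a law of steps with degenerate drift component for
which `Var L_n / log n → +∞`.  Paper proof: helper985.
-/

open MeasureTheory ProbabilityTheory Filter Topology
open scoped ENNReal

namespace Pool.Agent.R784.PV

/-- unnormalized weights. -/
noncomputable def cw (j : ℕ) : ℝ := (1 / 4) ^ j / ((j : ℝ) + 1) ^ 2

lemma cw_pos (j : ℕ) : 0 < cw j := by unfold cw; positivity

lemma cw_le (j : ℕ) : cw j ≤ (1 / 4) ^ j := by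
  unfold cw
  apply div_le_self (by positivity)
  have : (0 : ℝ) ≤ j := Nat.cast_nonneg j
  nlinarith

lemma sum_geo : Summable (fun j : ℕ => ((1 : ℝ) / 4) ^ j) :=
  summable_geometric_of_lt_one (by norm_num) (by norm_num)

lemma sum_cw : Summable cw := sum_geo.of_nonneg_of_le (fun j => (cw_pos j).le) cw_le

/-- the normalization. -/
noncomputable def T : ℝ := ∑' j, cw j

lemma T_ge : 1 ≤ T := by
  have := sum_cw.le_tsum 0 (fun j _ => (cw_pos j).le)
  simpa [cw, T] using this

lemma T_le : T ≤ 2 := by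
  have h := sum_cw.tsum_le_tsum cw_le sum_geo
  rw [tsum_geometric_of_lt_one (by norm_num) (by norm_num)] at h
  unfold T
  norm_num at h
  linarith

/-- the weights. -/
noncomputable def pw (j : ℕ) : ℝ := cw j / T

lemma T_pos : 0 < T := by linarith [T_ge]

lemma pw_pos (j : ℕ) : 0 < pw j := div_pos (cw_pos j) T_pos

lemma sum_pw : Summable pw := sum_cw.div_const T

lemma tsum_pw : ∑' j, pw j = 1 := by
  unfold pw
  rw [tsum_div_const]
  exact div_self T_pos.ne'

lemma pw_le (j : ℕ) : pw j ≤ (1 / 4) ^ j := by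
  unfold pw
  exact (div_le_self (cw_pos j).le T_ge).trans (cw_le j)

lemma pw_ge (j : ℕ) : cw j / 2 ≤ pw j := by
  unfold pw
  exact div_le_div_of_nonneg_left (cw_pos j).le T_pos T_le

/-- the law of the exponent. -/
noncomputable def lam : Measure ℕ := Measure.count.withDensity (fun j => ENNReal.ofReal (pw j))

lemma lintegral_lam (g : ℕ → ℝ≥0∞) :
    ∫⁻ j, g j ∂lam = ∑' j, ENNReal.ofReal (pw j) * g j := by
  rw [lam, lintegral_withDensity_eq_lintegral_mul _ (measurable_of_countable _)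
    (measurable_of_countable _), lintegral_count]
  rfl

instance : IsProbabilityMeasure lam := by
  constructor
  have h := lintegral_lam (fun _ => 1)
  rw [lintegral_one] at h
  rw [h]
  simp only [mul_one]
  rw [← ENNReal.ofReal_tsum_of_nonneg (fun j => (pw_pos j).le) sum_pw, tsum_pw]
  simp

lemma lam_singleton (j : ℕ) : lam {j} = ENNReal.ofReal (pw j) := by
  rw [lam, withDensity_apply _ (measurableSet_singleton j)]
  simp

/-- the heavy-tailed variable. -/
noncomputable def V (j : ℕ) : ℝ := 2 ^ j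

lemma memLp_V : MemLp V 2 lam := by
  rw [memLp_two_iff_integrable_sq (measurable_of_countable _).aestronglyMeasurable]
  refine ⟨(measurable_of_countable _).aestronglyMeasurable, ?_⟩
  rw [HasFiniteIntegral, lintegral_lam]
  have h : ∀ j, ENNReal.ofReal (pw j) * ‖V j ^ 2‖ₑ = ENNReal.ofReal (1 / ((j : ℝ) + 1) ^ 2 / T) := by
    intro j
    rw [Real.enorm_eq_ofReal (by positivity), ← ENNReal.ofReal_mul (pw_pos j).le]
    congr 1
    unfold pw cw V
    have e : ((1 : ℝ) / 4) ^ j * (2 ^ j) ^ 2 = 1 := by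
      rw [← pow_mul, mul_comm j 2, pow_mul, ← mul_pow]
      norm_num
    calc ((1 : ℝ) / 4) ^ j / ((j : ℝ) + 1) ^ 2 / T * (2 ^ j) ^ 2
        = (((1 : ℝ) / 4) ^ j * (2 ^ j) ^ 2) / ((j : ℝ) + 1) ^ 2 / T := by ring
      _ = 1 / ((j : ℝ) + 1) ^ 2 / T := by rw [e]
  simp only [h]
  have hs : Summable (fun j : ℕ => 1 / ((j : ℝ) + 1) ^ 2 / T) := by
    apply Summable.div_const
    have := (summable_nat_add_iff 1).2 (Real.summable_one_div_nat_pow.2 (by norm_num : 1 < 2))
    simpa using this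
  rw [← ENNReal.ofReal_tsum_of_nonneg (fun j => by have := T_pos; positivity) hs]
  exact ENNReal.ofReal_lt_top

lemma int_V : Integrable V lam := memLp_V.integrable (by norm_num)

/-- mean of the heavy-tailed variable. -/
noncomputable def mV : ℝ := ∫ j, V j ∂lam

/-- the values of the step. -/
noncomputable def zz (j : ℕ) : E2 := !₂[1, V j - mV]

lemma zz0 (j : ℕ) : zz j 0 = 1 := by simp [zz]
lemma zz1 (j : ℕ) : zz j 1 = V j - mV := by simp [zz]

lemma zz_meas : Measurable zz := measurable_of_countable _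

lemma V_inj : Function.Injective V := by
  intro i j h
  unfold V at h
  exact pow_right_injective₀ (by norm_num) (by norm_num) h

lemma zz_inj : Function.Injective zz := by
  intro i j h
  have := congrArg (fun x : E2 => x 1) h
  simp only [zz1] at this
  exact V_inj (by linarith)

/-- the law of the steps. -/
noncomputable def nu : Measure E2 := lam.map zz

instance : IsProbabilityMeasure nu := Measure.isProbabilityMeasure_map zz_meas.aemeasurable

lemma nu_singleton (j : ℕ) : nu {zz j} = ENNReal.ofReal (pw j) := by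
  rw [nu, Measure.map_apply zz_meas (measurableSet_singleton _), ← lam_singleton]
  congr 1
  ext i
  simp [zz_inj.eq_iff]

lemma norm_zz_sq (j : ℕ) : ‖zz j‖ ^ 2 = 1 + (V j - mV) ^ 2 := by
  rw [EuclideanSpace.norm_sq_eq]
  simp [Fin.sum_univ_two, zz0, zz1]

lemma norm_zz_ge (j : ℕ) : V j - mV ≤ ‖zz j‖ := by
  refine le_of_sq_le_sq' ?_ (norm_nonneg _)
  rw [norm_zz_sq]; linarith
where
  le_of_sq_le_sq' {a b : ℝ} (h : a ^ 2 ≤ b ^ 2) (hb : 0 ≤ b) : a ≤ b := by
    nlinarith [abs_le_of_sq_le_sq h hb, le_abs_self a]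

lemma memLp_VW : MemLp (fun j => V j - mV) 2 lam := memLp_V.sub (memLp_const mV)

lemma int_sq_zz : Integrable (fun j => ‖zz j‖ ^ 2) lam := by
  simp only [norm_zz_sq]
  exact (integrable_const _).add memLp_VW.integrable_sq

lemma int_sq_nu : Integrable (fun x : E2 => ‖x‖ ^ 2) nu := by
  rw [nu, integrable_map_measure (by fun_prop) zz_meas.aemeasurable]
  exact int_sq_zz

lemma memLp_nu : MemLp (id : E2 → E2) 2 nu := by
  rw [memLp_two_iff_integrable_sq_norm measurable_id.aestronglyMeasurable]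
  exact int_sq_nu

lemma int_nu : Integrable (id : E2 → E2) nu := memLp_nu.integrable (by norm_num)

lemma mean_coord (i : Fin 2) : (∫ x, x ∂nu : E2) i = ∫ j, zz j i ∂lam := by
  have h1 : (∫ x, x ∂nu : E2) i = ∫ x : E2, x i ∂nu :=
    ((EuclideanSpace.proj (𝕜 := ℝ) i).integral_comp_comm (φ := fun x : E2 => x) int_nu).symm
  rw [h1, nu, integral_map zz_meas.aemeasurable]
  exact ((EuclideanSpace.proj (𝕜 := ℝ) i).continuous.measurable).aestronglyMeasurable

lemma mean_nu : (∫ x, x ∂nu : E2) = !₂[1, 0] := by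
  ext i
  rw [mean_coord]
  fin_cases i
  · simp [zz0]
  · simp only [Fin.mk_one, zz1]
    rw [integral_sub int_V (integrable_const _)]
    simp [mV]

lemma inner_eq (x y : E2) : inner ℝ x y = x 0 * y 0 + x 1 * y 1 := by
  simp [PiLp.inner_apply, Fin.sum_univ_two]
  ring

/-- the variance of the component in direction `u`. -/
noncomputable def sigma2 (ν : Measure E2) (u : E2) : ℝ :=
  ∫ x, (inner ℝ (x - ∫ y, y ∂ν) u) ^ 2 ∂ν

lemma sigma2_nu (u : E2) : sigma2 nu u = u 1 ^ 2 * ∫ j, (V j - mV) ^ 2 ∂lam := by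
  unfold sigma2
  rw [mean_nu, nu, integral_map zz_meas.aemeasurable (by fun_prop), ← integral_const_mul]
  refine integral_congr_ae (Eventually.of_forall fun j => ?_)
  simp only [inner_eq]
  simp [zz0, zz1]
  ring

lemma var_pos : 0 < ∫ j, (V j - mV) ^ 2 ∂lam := by
  rw [integral_pos_iff_support_of_nonneg (fun j => sq_nonneg _) memLp_VW.integrable_sq]
  have h : V 0 ≠ V 1 := V_inj.ne (by norm_num)
  have : (0 : ℕ) ∈ Function.support (fun j => (V j - mV) ^ 2)
      ∨ (1 : ℕ) ∈ Function.support (fun j => (V j - mV) ^ 2) := by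
    by_contra hcon
    push Not at hcon
    obtain ⟨h0, h1⟩ := hcon
    simp only [Function.notMem_support] at h0 h1
    have h0' := pow_eq_zero_iff (two_ne_zero) |>.1 h0
    have h1' := pow_eq_zero_iff (two_ne_zero) |>.1 h1
    exact h (by linarith)
  rcases this with h | h
  · refine lt_of_lt_of_le ?_ (measure_mono (Set.singleton_subset_iff.2 h))
    rw [lam_singleton]
    exact ENNReal.ofReal_pos.2 (pw_pos _)
  · refine lt_of_lt_of_le ?_ (measure_mono (Set.singleton_subset_iff.2 h))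
    rw [lam_singleton]
    exact ENNReal.ofReal_pos.2 (pw_pos _)

lemma pow_bound {q : ℝ} (n : ℕ) (h0 : 0 ≤ q) (h1 : q ≤ 1) (hn : n * q ≤ 1) :
    n * q / 2 ≤ 1 - (1 - q) ^ n := by
  have hb : 1 + (n : ℝ) * q ≤ (1 + q) ^ n := one_add_mul_le_pow (by linarith) n
  have h2 : (1 - q) ^ n * (1 + q) ^ n ≤ 1 := by
    rw [← mul_pow]
    apply pow_le_one₀
    · nlinarith
    · nlinarith
  have h3 : 0 ≤ (1 - q) ^ n := by apply pow_nonneg; linarith
  have h4 : 0 ≤ (n : ℝ) * q := by positivity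
  have h5 : (1 - q) ^ n * (1 + n * q) ≤ 1 := (mul_le_mul_of_nonneg_left hb h3).trans h2
  nlinarith

section walk

variable {Ω : Type*} [MeasurableSpace Ω] (P : Measure Ω)
  (Z : ℕ → Ω → E2)

lemma memLp_Z (hm : ∀ i, Measurable (Z i)) (hlaw : ∀ i, P.map (Z i) = nu) (i : ℕ) :
    MemLp (Z i) 2 P := by
  have := memLp_nu
  rw [← hlaw i, memLp_map_measure_iff measurable_id.aestronglyMeasurable (hm i).aemeasurable]
    at this
  exact this

lemma memLp_sum (hm : ∀ i, Measurable (Z i)) (hlaw : ∀ i, P.map (Z i) = nu) (n : ℕ) :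
    MemLp (fun ω => 2 * Real.pi * ∑ i ∈ Finset.range n, ‖Z i ω‖) 2 P := by
  apply MemLp.const_mul
  exact memLp_finsetSum _ fun i _ => (memLp_Z P Z hm hlaw i).norm

variable [IsProbabilityMeasure P]

lemma memLp_L (hm : ∀ i, Measurable (Z i)) (hlaw : ∀ i, P.map (Z i) = nu) (n : ℕ) :
    MemLp (L Z n) 2 P := by
  refine (memLp_sum P Z hm hlaw n).mono (L_meas Z hm n).aestronglyMeasurable
    (Eventually.of_forall fun ω => ?_)
  rw [Real.norm_eq_abs, Real.norm_eq_abs, abs_of_nonneg (L_nonneg Z n ω)]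
  exact (L_upper Z n ω).trans (le_abs_self _)

/-- first absolute moment. -/
noncomputable def M1 : ℝ := ∫ x, ‖x‖ ∂nu

lemma EL_le (hm : ∀ i, Measurable (Z i)) (hlaw : ∀ i, P.map (Z i) = nu) (n : ℕ) :
    ∫ ω, L Z n ω ∂P ≤ 2 * Real.pi * M1 * n := by
  have h1 : ∫ ω, L Z n ω ∂P ≤ ∫ ω, 2 * Real.pi * ∑ i ∈ Finset.range n, ‖Z i ω‖ ∂P :=
    integral_mono ((memLp_L P Z hm hlaw n).integrable (by norm_num))
      ((memLp_sum P Z hm hlaw n).integrable (by norm_num)) (fun ω => L_upper Z n ω)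
  refine h1.trans (le_of_eq ?_)
  rw [integral_const_mul, integral_finsetSum _ fun i _ =>
    ((memLp_Z P Z hm hlaw i).norm.integrable (by norm_num))]
  have h2 : ∀ i, ∫ ω, ‖Z i ω‖ ∂P = M1 := by
    intro i
    rw [M1, ← hlaw i, integral_map (hm i).aemeasurable (by fun_prop)]
  simp only [h2, Finset.sum_const, Finset.card_range, nsmul_eq_mul]
  ring

/-- the event that one of the first `n` steps equals `zz J`. -/
def Ev (n J : ℕ) : Set Ω := {ω | ∃ i < n, Z i ω = zz J}

lemma prob_Ev (hm : ∀ i, Measurable (Z i)) (hind : iIndepFun Z P)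
    (hlaw : ∀ i, P.map (Z i) = nu) (n J : ℕ) :
    P.real (Ev Z n J) = 1 - (1 - pw J) ^ n := by
  have hset : (Ev Z n J)ᶜ = ⋂ i ∈ Finset.range n, Z i ⁻¹' {zz J}ᶜ := by
    ext ω
    simp [Ev]
  have hms : MeasurableSet (Ev Z n J)ᶜ := by
    rw [hset]
    exact Finset.measurableSet_biInter _ fun i _ =>
      (hm i) (measurableSet_singleton _).compl
  have h1 : P (Ev Z n J)ᶜ = ∏ i ∈ Finset.range n, P (Z i ⁻¹' {zz J}ᶜ) := by
    rw [hset]
    exact hind.measure_inter_preimage_eq_mul (Finset.range n)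
      (fun i _ => (measurableSet_singleton (zz J)).compl)
  have h2 : ∀ i, P (Z i ⁻¹' {zz J}ᶜ) = ENNReal.ofReal (1 - pw J) := by
    intro i
    rw [← Measure.map_apply (hm i) (measurableSet_singleton _).compl, hlaw i,
      prob_compl_eq_one_sub (measurableSet_singleton _), nu_singleton,
      ENNReal.ofReal_sub _ (pw_pos J).le, ENNReal.ofReal_one]
  simp only [h2, Finset.prod_const, Finset.card_range] at h1
  have hq : 0 ≤ 1 - pw J := by
    have := pw_le J
    have h3 : ((1 : ℝ) / 4) ^ J ≤ 1 := pow_le_one₀ (by norm_num) (by norm_num)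
    linarith
  have h3 : P.real (Ev Z n J)ᶜ = (1 - pw J) ^ n := by
    rw [measureReal_def, h1, ← ENNReal.ofReal_pow hq, ENNReal.toReal_ofReal (pow_nonneg hq n)]
  have h4 := prob_compl_eq_one_sub (μ := P) hms
  rw [compl_compl] at h4
  rw [measureReal_def, h4, ENNReal.toReal_sub_of_le prob_le_one ENNReal.one_ne_top,
    ENNReal.toReal_one, ← measureReal_def, h3]

lemma var_lower (hm : ∀ i, Measurable (Z i)) (hind : iIndepFun Z P)
    (hlaw : ∀ i, P.map (Z i) = nu) (n J : ℕ)
    (h1 : 2 * Real.pi * M1 * n + Real.pi / 2 * mV ≤ (2 : ℝ) ^ J) (h2 : (n : ℝ) ≤ 4 ^ J) :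
    (n : ℝ) / (64 * ((J : ℝ) + 1) ^ 2) ≤ variance (L Z n) P := by
  set c : ℝ := 2 ^ J / 2 with hc
  have hcpos : 0 < c := by positivity
  have hV := meas_ge_le_variance_div_sq (memLp_L P Z hm hlaw n) hcpos
  have hsub : Ev Z n J ⊆ {ω | c ≤ |L Z n ω - P[L Z n]|} := by
    rintro ω ⟨i, hi, hZ⟩
    have l1 := L_lower Z hi ω
    rw [hZ] at l1
    have l2 := norm_zz_ge J
    have l3 := EL_le P Z hm hlaw n
    have l4 : V J = 2 ^ J := rfl
    have hpi := Real.pi_gt_three
    have hpos : (0 : ℝ) < 2 ^ J := by positivity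
    show c ≤ |L Z n ω - ∫ ω', L Z n ω' ∂P|
    refine le_trans ?_ (le_abs_self (L Z n ω - ∫ ω', L Z n ω' ∂P))
    have l5 : Real.pi / 2 * (2 ^ J - mV) ≤ L Z n ω := by
      refine le_trans ?_ l1
      rw [← l4]
      exact mul_le_mul_of_nonneg_left l2 (by positivity)
    rw [hc]
    nlinarith
  have h3 : P (Ev Z n J) ≤ ENNReal.ofReal (variance (L Z n) P / c ^ 2) :=
    (measure_mono hsub).trans hV
  have hvar0 : 0 ≤ variance (L Z n) P := variance_nonneg _ _
  have h4 : P.real (Ev Z n J) ≤ variance (L Z n) P / c ^ 2 := by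
    rw [measureReal_def]
    have := ENNReal.toReal_mono ENNReal.ofReal_ne_top h3
    rwa [ENNReal.toReal_ofReal (by positivity)] at this
  rw [prob_Ev P Z hm hind hlaw] at h4
  have hp1 := pw_le J
  have hp2 := pw_ge J
  have hp0 := pw_pos J
  have hp3 : ((1 : ℝ) / 4) ^ J ≤ 1 := pow_le_one₀ (by norm_num) (by norm_num)
  have e4 : ((1 : ℝ) / 4) ^ J * 4 ^ J = 1 := by rw [← mul_pow]; norm_num
  have h5 : (n : ℝ) * pw J ≤ 1 := by
    calc (n : ℝ) * pw J ≤ 4 ^ J * (1 / 4) ^ J := mul_le_mul h2 hp1 hp0.le (by positivity)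
      _ = 1 := by rw [mul_comm]; exact e4
  have h6 := pow_bound n hp0.le (hp1.trans hp3) h5
  have h7 : (n : ℝ) * pw J / 2 ≤ variance (L Z n) P / c ^ 2 := h6.trans h4
  rw [le_div_iff₀ (by positivity)] at h7
  refine le_trans ?_ h7
  have hc2 : c ^ 2 = 4 ^ J / 4 := by
    rw [hc, div_pow, ← pow_mul, mul_comm J 2, pow_mul]; norm_num
  rw [hc2]
  have h8 : (n : ℝ) * (cw J / 2) / 2 * (4 ^ J / 4) ≤ (n : ℝ) * pw J / 2 * (4 ^ J / 4) := by
    gcongr
  refine le_trans ?_ h8
  have h9 : cw J * 4 ^ J = 1 / ((J : ℝ) + 1) ^ 2 := by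
    unfold cw
    rw [div_mul_eq_mul_div, e4]
  have h10 : (n : ℝ) * (cw J / 2) / 2 * (4 ^ J / 4) = n * (cw J * 4 ^ J) / 16 := by ring
  rw [h10, h9]
  have hn : (0 : ℝ) ≤ n := Nat.cast_nonneg n
  rw [mul_one_div, div_div, mul_comm (((J : ℝ) + 1) ^ 2) 16]
  gcongr
  norm_num

theorem core (hm : ∀ i, Measurable (Z i)) (hind : iIndepFun Z P)
    (hlaw : ∀ i, P.map (Z i) = nu) :
    Tendsto (fun n : ℕ => variance (L Z n) P / Real.log n) atTop atTop := by
  -- comparison sequence
  have hlim : Tendsto (fun n : ℕ => (n : ℝ) / (2304 * Real.log n ^ 3)) atTop atTop := by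
    have h1 : Tendsto (fun x : ℝ => Real.log x ^ 3 / (1 * x + 0)) atTop (𝓝 0) :=
      Real.tendsto_pow_log_div_mul_add_atTop 1 0 3 one_ne_zero
    have h2 : Tendsto (fun x : ℝ => 2304 * (Real.log x ^ 3 / x)) atTop (𝓝[>] 0) := by
      rw [tendsto_nhdsWithin_iff]
      constructor
      · have := h1.const_mul 2304
        simpa using this
      · filter_upwards [eventually_gt_atTop 1] with x hx
        have := Real.log_pos hx
        simp only [Set.mem_Ioi]
        positivity
    have h3 := h2.inv_tendsto_nhdsGT_zero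
    have h4 := h3.comp tendsto_natCast_atTop_atTop
    refine h4.congr fun n => ?_
    simp only [Function.comp, Pi.inv_apply]
    rw [← mul_div_assoc, inv_div]
  refine tendsto_atTop_mono' _ ?_ hlim
  set K : ℝ := 2 * Real.pi * M1 + |Real.pi / 2 * mV| with hK
  have hM1 : 0 ≤ M1 := integral_nonneg fun _ => norm_nonneg _
  filter_upwards [eventually_ge_atTop 3, eventually_ge_atTop (Nat.ceil K)] with n hn3 hnK
  have hnK' : K ≤ n := (Nat.le_ceil K).trans (by exact_mod_cast hnK)
  have hn : (3 : ℝ) ≤ n := by exact_mod_cast hn3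
  set J : ℕ := 2 * (Nat.log 2 n + 1) with hJ
  have hpow : (n : ℝ) ≤ 2 ^ (Nat.log 2 n + 1) := by
    exact_mod_cast (Nat.lt_pow_succ_log_self (by norm_num : 1 < 2) n).le
  have hpowJ : (n : ℝ) ^ 2 ≤ 2 ^ J := by
    rw [hJ, mul_comm, pow_mul]
    gcongr
  have hlog1 : 1 ≤ Real.log n := by
    rw [Real.le_log_iff_exp_le (by linarith)]
    linarith [Real.exp_one_lt_d9]
  have c1 : 2 * Real.pi * M1 * n + Real.pi / 2 * mV ≤ (2 : ℝ) ^ J := by
    refine le_trans ?_ hpowJ
    have a1 : Real.pi / 2 * mV ≤ |Real.pi / 2 * mV| * n := by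
      have := le_abs_self (Real.pi / 2 * mV)
      have h0 := abs_nonneg (Real.pi / 2 * mV)
      nlinarith
    calc 2 * Real.pi * M1 * n + Real.pi / 2 * mV
        ≤ 2 * Real.pi * M1 * n + |Real.pi / 2 * mV| * n := by linarith
      _ = K * n := by rw [hK]; ring
      _ ≤ n * n := by gcongr
      _ = (n : ℝ) ^ 2 := by ring
  have c2 : (n : ℝ) ≤ 4 ^ J := by
    have : (2 : ℝ) ^ J ≤ 4 ^ J := by gcongr; norm_num
    nlinarith
  have hv := var_lower P Z hm hind hlaw n J c1 c2
  have hJlog : (J : ℝ) + 1 ≤ 6 * Real.log n := by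
    have h1 : (Nat.log 2 n : ℝ) * Real.log 2 ≤ Real.log n := by
      rw [← Real.log_pow]
      apply Real.log_le_log (by positivity)
      exact_mod_cast Nat.pow_log_le_self 2 (by omega)
    have h2 : (Nat.log 2 n : ℝ) ≤ 3 / 2 * Real.log n := by
      have := Real.log_two_gt_d9
      have h3 : (0 : ℝ) ≤ Nat.log 2 n := Nat.cast_nonneg _
      nlinarith
    rw [hJ]
    push_cast
    linarith
  have hJpos : (0 : ℝ) < (J : ℝ) + 1 := by positivity
  calc (n : ℝ) / (2304 * Real.log n ^ 3)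
      = (n : ℝ) / (64 * (6 * Real.log n) ^ 2) / Real.log n := by
        rw [div_div]; congr 1; ring
    _ ≤ (n : ℝ) / (64 * ((J : ℝ) + 1) ^ 2) / Real.log n := by gcongr
    _ ≤ variance (L Z n) P / Real.log n := by gcongr

end walk

end Pool.Agent.R784.PV

namespace Pool.Agent.Results.MP_1c2560_pr.PerimeterVariance

open Pool.Agent.R784.PV

/-- **Q1 of MP_1c2560_pr is false.** There is a law `ν` on the plane with finite second moment,
nonzero mean `μ`, zero variance in the direction of the drift, positive variance in the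
orthogonal direction(s), such that for every i.i.d. sequence of steps with law `ν` (and such
sequences exist) `Var L_n / log n → +∞`. -/
theorem result : ∃ ν : Measure E2, IsProbabilityMeasure ν ∧
    Integrable (fun x : E2 => ‖x‖ ^ 2) ν ∧
    (∫ x, x ∂ν : E2) ≠ 0 ∧
    sigma2 ν (‖(∫ x, x ∂ν : E2)‖⁻¹ • (∫ x, x ∂ν : E2)) = 0 ∧
    (∀ u : E2, ‖u‖ = 1 → inner ℝ u (∫ x, x ∂ν : E2) = 0 → 0 < sigma2 ν u) ∧
    (∃ (Ω : Type) (_ : MeasurableSpace Ω) (P : Measure Ω) (_ : IsProbabilityMeasure P)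
      (Z : ℕ → Ω → E2), (∀ i, Measurable (Z i)) ∧ iIndepFun Z P ∧ ∀ i, P.map (Z i) = ν) ∧
    ∀ (Ω : Type) (_ : MeasurableSpace Ω) (P : Measure Ω) (_ : IsProbabilityMeasure P)
      (Z : ℕ → Ω → E2), (∀ i, Measurable (Z i)) → iIndepFun Z P → (∀ i, P.map (Z i) = ν) →
      Tendsto (fun n : ℕ => variance (L Z n) P / Real.log n) atTop atTop := by
  refine ⟨nu, inferInstance, int_sq_nu, ?_, ?_, ?_, ?_, ?_⟩
  · rw [mean_nu]
    intro h
    have := congrArg (fun x : E2 => x 0) h
    simp at this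
  · rw [sigma2_nu, mean_nu]
    simp
  · intro u hu hperp
    rw [sigma2_nu]
    rw [mean_nu, inner_eq] at hperp
    have h0 : u 0 = 0 := by simpa using hperp
    have h1 : u 1 ^ 2 = 1 := by
      have := EuclideanSpace.norm_sq_eq u
      rw [hu] at this
      simp [Fin.sum_univ_two, h0] at this
      linarith
    rw [h1, one_mul]
    exact var_pos
  · refine ⟨ℕ → E2, inferInstance, Measure.infinitePi (fun _ => nu), inferInstance,
      fun i ω => ω i, fun i => measurable_pi_apply i, ?_, fun i => ?_⟩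
    · exact iIndepFun_infinitePi (P := fun _ : ℕ => nu) (X := fun _ => id) (fun _ => measurable_id)
    · exact Measure.infinitePi_map_eval (fun _ => nu) i
  · intro Ω _ P _ Z hm hind hlaw
    exact core P Z hm hind hlaw

end Pool.Agent.Results.MP_1c2560_pr.PerimeterVariance
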